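import Pool.Agent.Helper8.Sey.Basic

/-!
# Project SEY (MP_b6b2d3_co), packet LOCP: locality with respect to parts
-/

namespace Pool.Agent.Helper89.Sey

open Pool.Agent.Helper8.Sey

variable {V : Type} (P : Sys V)

/-- `col` on a part depends only on `ω` on this part. -/
theorem col_congr (ω ω' : P.Om) (m : ℕ) (h : ∀ w, P.part w = m → ω w = ω' w) :
    ∀ w, P.part w = m → P.col ω w = P.col ω' w := by
  have key : ∀ n : ℕ, ∀ w, P.part w = m →
      (P.colF ω)^[n] (fun v => (ω v).1 0) w = (P.colF ω')^[n] (fun v => (ω' v).1 0) w := by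
    intro n
    induction n with
    | zero =>
      intro w hw
      change (ω w).1 0 = (ω' w).1 0
      rw [h w hw]
    | succ n ih =>
      intro w hw
      rw [Function.iterate_succ_apply', Function.iterate_succ_apply']
      generalize (P.colF ω)^[n] (fun v => (ω v).1 0) = c at ih
      generalize (P.colF ω')^[n] (fun v => (ω' v).1 0) = c' at ih
      unfold Sys.colF
      rw [h w hw]
      congr 1
      funext a
      apply propext
      constructor
      · rintro ⟨u, h1, h2, h3, h4⟩
        exact ⟨u, h1, h2, h3, by rw [← ih u (h2.trans hw)]; exact h4⟩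
      · rintro ⟨u, h1, h2, h3, h4⟩
        exact ⟨u, h1, h2, h3, by rw [ih u (h2.trans hw)]; exact h4⟩
  exact key _

/-- the classes of a window are in two consecutive parts -/
theorem part_of_win (ω : P.Om) {l j : ℕ} (hl : l < P.K) (hj : j < P.J) (a : Fin P.q) (w : V)
    (h : P.cls ω w ∈ P.Win j (P.cl l a)) :
    P.part w = l ∨ P.part w + 1 = l ∨ (l = 0 ∧ P.part w + 1 = P.K) := by
  obtain ⟨t, ht, e⟩ := P.mem_Win.1 h
  have hJ := P.J_lt_q
  have hK := P.hK
  by_cases hta : t ≤ (a : ℕ)
  · rw [P.cl_sub l a t hta] at e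
    exact Or.inl ((P.cls_eq_iff ω w hl _).1 e).1
  · rcases Nat.eq_zero_or_pos l with h0 | h0
    · subst h0
      rw [P.cl_sub_zero a t (by omega) (by omega)] at e
      have h1 := ((P.cls_eq_iff ω w (by omega) _).1 e).1
      exact Or.inr (Or.inr ⟨rfl, by omega⟩)
    · obtain ⟨l0, rfl⟩ : ∃ l0, l = l0 + 1 := ⟨l - 1, by omega⟩
      rw [P.cl_sub' l0 a t (by omega) (by omega)] at e
      have h1 := ((P.cls_eq_iff ω w (by omega) _).1 e).1
      exact Or.inr (Or.inl (by omega))

/-- **Packet LOCP.** -/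
theorem goalLOCP (hW : GoalWIN) : GoalLOCP := by
  intro V _ P R l ω ω' hl hω v hv
  have hcls : ∀ w, (P.part w = l ∨ P.part w + 1 = l ∨ (l = 0 ∧ P.part w + 1 = P.K)) →
      P.cls ω w = P.cls ω' w := by
    intro w hw
    unfold Sys.cls
    rw [col_congr P ω ω' (P.part w) (fun w' hw' => hω w' (by rw [hw']; exact hw)) w rfl]
  refine ⟨hcls v (Or.inl hv), ?_⟩
  intro j hj hT
  have hg : P.cls ω v = P.cl l (P.col ω v) := by
    unfold Sys.cls
    rw [hv]
  have hA : P.Agree (P.Win j (P.cls ω v)) ω ω' := by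
    intro w hw
    have hw' : P.part w = l ∨ P.part w + 1 = l ∨ (l = 0 ∧ P.part w + 1 = P.K) := by
      rw [hg] at hw
      rcases hw with hw | hw
      · exact part_of_win P ω hl hj _ w hw
      · exact part_of_win P ω' hl hj _ w hw
    exact ⟨hcls w hw', by rw [hω w hw']⟩
  exact (hW V P R j (P.cls ω v) ω ω' hA v rfl).2.1 hT

end Pool.Agent.Helper89.Sey
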